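import Pool.Agent.helper60.MW.SpecC

set_option autoImplicit false

/-!
MW row SHF: shifting by a lattice vector
-/

namespace Pool.Agent.MW

theorem SHF : SHF_stmt := by
  intro m n α γ v hm hmn
  obtain ⟨q, hq⟩ := hmn
  have hq' : (n : ℤ) ^ 2 = (m : ℤ) * (q : ℤ) := by exact_mod_cast hq
  refine ⟨(γ.1 + (q : ℤ) * v.1, γ.2 + (q : ℤ) * v.2), ?_⟩
  intro p s
  have h1 : s.1 * (n : ℤ) ^ 4 - m * ps1 n α (γ.1 + (q : ℤ) * v.1, γ.2 + (q : ℤ) * v.2) p =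
      (s.1 - v.1) * (n : ℤ) ^ 4 - m * ps1 n α γ p := by
    unfold ps1
    simp only
    have h4 : (n : ℤ) ^ 4 = (n : ℤ) ^ 2 * ((m : ℤ) * (q : ℤ)) := by rw [← hq']; ring
    rw [h4]
    ring
  have h2 : s.2 * (n : ℤ) ^ 4 - m * ps2 n α (γ.1 + (q : ℤ) * v.1, γ.2 + (q : ℤ) * v.2) p =
      (s.2 - v.2) * (n : ℤ) ^ 4 - m * ps2 n α γ p := by
    unfold ps2
    simp only
    have h4 : (n : ℤ) ^ 4 = (n : ℤ) ^ 2 * ((m : ℤ) * (q : ℤ)) := by rw [← hq']; ring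
    rw [h4]
    ring
  unfold Near
  rw [h1, h2]

end Pool.Agent.MW
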