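import Pool.Agent.helper60.MW.SpecB

set_option autoImplicit false

/-!
MW row CPT: bounded sequences of motions converge along `ul`
-/

namespace Pool.Agent.MW

open MeasureTheory Set Pool.Agent.helper17.Worm

theorem CPT : CPT_stmt := by
  intro g R h
  have hK : IsCompact (Icc (0 : ℝ) (2 * Real.pi) ×ˢ Metric.closedBall (0 : ℂ) R) :=
    isCompact_Icc.prod (isCompact_closedBall 0 R)
  have hm : ((Ultrafilter.map g ul : Ultrafilter (ℝ × ℂ)) : Filter (ℝ × ℂ)) ≤
      Filter.principal (Icc (0 : ℝ) (2 * Real.pi) ×ˢ Metric.closedBall (0 : ℂ) R) := by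
    rw [Filter.le_principal_iff]
    refine h.mono ?_
    intro n hn
    show g n ∈ Icc (0 : ℝ) (2 * Real.pi) ×ˢ Metric.closedBall (0 : ℂ) R
    refine ⟨⟨hn.1, hn.2.1⟩, ?_⟩
    rw [Metric.mem_closedBall, dist_zero_right]
    exact hn.2.2
  obtain ⟨x, -, hx⟩ := hK.ultrafilter_le_nhds (Ultrafilter.map g ul) hm
  exact ⟨x, hx⟩

end Pool.Agent.MW
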